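import Pool.Agent.H49R2.Ext

/-!
The algebras `V ⊕ E ⊕ E ⊕ F`, where `E` is the exterior algebra of `V = F ^ n`.
-/

set_option autoImplicit false

namespace Pool.Agent.H49R2

universe u

section top

variable {F : Type u} [Field F]

/-- the coefficient of the top form of `F ^ n` -/
noncomputable def top (n : ℕ) : ExteriorAlgebra F (Fin n → F) →ₗ[F] F :=
  ExteriorAlgebra.liftAlternating (R := F) (M := Fin n → F) (N := F)
    (Pi.single n (Matrix.detRowAlternating (n := Fin n) (R := F)))

theorem top_ιMulti_ne {n k : ℕ} (h : k ≠ n) (v : Fin k → (Fin n → F)) :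
    top n (ExteriorAlgebra.ιMulti F k v) = 0 := by
  rw [top, ExteriorAlgebra.liftAlternating_apply_ιMulti, Pi.single_eq_of_ne h]
  rfl

theorem top_ιMulti {n : ℕ} (v : Fin n → (Fin n → F)) :
    top n (ExteriorAlgebra.ιMulti F n v) = Matrix.det v := by
  rw [top, ExteriorAlgebra.liftAlternating_apply_ιMulti, Pi.single_eq_same]
  rfl

theorem prod_eq_ιMulti {n : ℕ} (l : List (Fin n → F)) :
    (l.map (ExteriorAlgebra.ι F)).prod = ExteriorAlgebra.ιMulti F l.length l.get := by
  rw [ExteriorAlgebra.ιMulti_apply]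
  congr 1
  apply List.ext_get
  · simp
  · intro i h1 h2
    simp

theorem top_prod {n : ℕ} (l : List (Fin n → F)) (h : l.length ≠ n) :
    top n ((l.map (ExteriorAlgebra.ι F)).prod) = 0 := by
  rw [prod_eq_ιMulti, top_ιMulti_ne h]

theorem top_sg {n : ℕ} (hn : Even n) (x : ExteriorAlgebra F (Fin n → F)) :
    top n (sg x) = top n x := by
  have h : (top n).comp (CliffordAlgebra.involute (Q := (0 : QuadraticForm F (Fin n → F)))).toLinearMap
      = top (F := F) n := by
    apply ExteriorAlgebra.lhom_ext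
    intro i
    ext v
    change top n (sg (ExteriorAlgebra.ιMulti F i v)) = top n (ExteriorAlgebra.ιMulti F i v)
    have h1 : sg (ExteriorAlgebra.ιMulti F i v) = (-1 : F) ^ i • ExteriorAlgebra.ιMulti F i v := by
      have h2 := CliffordAlgebra.involute_prod_map_ι (Q := (0 : QuadraticForm F (Fin n → F)))
        (List.ofFn v)
      rw [List.length_ofFn, List.map_ofFn] at h2
      rw [ExteriorAlgebra.ιMulti_apply]
      exact h2
    rw [h1, map_smul]
    by_cases hi : i = n
    · subst hi
      rw [Even.neg_one_pow hn, one_smul]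
    · rw [top_ιMulti_ne hi, smul_zero]
  exact LinearMap.congr_fun h x

theorem top_mul_ι {n : ℕ} (hn : Even n) (v : Fin n → F) (x : ExteriorAlgebra F (Fin n → F)) :
    top n (x * ExteriorAlgebra.ι F v) = -top n (ExteriorAlgebra.ι F v * x) := by
  rw [mul_ι_eq]
  have h : ExteriorAlgebra.ι F v * sg x = -sg (ExteriorAlgebra.ι F v * x) := by
    rw [sg_mul, sg_ι, neg_mul, neg_neg]
  rw [h, map_neg, top_sg hn]

end top

/-- The underlying space `V × E × E × F`. -/
def Alg (F : Type u) [Field F] (n : ℕ) : Type u :=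
  (Fin n → F) × ExteriorAlgebra F (Fin n → F) × ExteriorAlgebra F (Fin n → F) × F

namespace Alg

variable {F : Type u} [Field F] {n : ℕ}

noncomputable instance : AddCommGroup (Alg F n) := inferInstanceAs (AddCommGroup
  ((Fin n → F) × ExteriorAlgebra F (Fin n → F) × ExteriorAlgebra F (Fin n → F) × F))
noncomputable instance : Module F (Alg F n) := inferInstanceAs (Module F
  ((Fin n → F) × ExteriorAlgebra F (Fin n → F) × ExteriorAlgebra F (Fin n → F) × F))

/-- the component in `V` -/
def v (x : Alg F n) : Fin n → F := x.1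
/-- the first component in `E` -/
def p (x : Alg F n) : ExteriorAlgebra F (Fin n → F) := x.2.1
/-- the second component in `E` -/
def c (x : Alg F n) : ExteriorAlgebra F (Fin n → F) := x.2.2.1
/-- the component in `F` -/
def z (x : Alg F n) : F := x.2.2.2

/-- build an element -/
def mk (a : Fin n → F) (b c : ExteriorAlgebra F (Fin n → F)) (d : F) : Alg F n := (a, b, c, d)

@[simp] theorem mk_v (a : Fin n → F) (b c : ExteriorAlgebra F (Fin n → F)) (d : F) :
    (mk a b c d).v = a := rfl
@[simp] theorem mk_p (a : Fin n → F) (b c : ExteriorAlgebra F (Fin n → F)) (d : F) :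
    (mk a b c d).p = b := rfl
@[simp] theorem mk_c (a : Fin n → F) (b c : ExteriorAlgebra F (Fin n → F)) (d : F) :
    (mk a b c d).c = c := rfl
@[simp] theorem mk_z (a : Fin n → F) (b c : ExteriorAlgebra F (Fin n → F)) (d : F) :
    (mk a b c d).z = d := rfl

theorem ext' {x y : Alg F n} (h1 : x.v = y.v) (h2 : x.p = y.p) (h3 : x.c = y.c) (h4 : x.z = y.z) :
    x = y := Prod.ext h1 (Prod.ext h2 (Prod.ext h3 h4))

@[simp] theorem add_v (x y : Alg F n) : (x + y).v = x.v + y.v := rfl
@[simp] theorem add_p (x y : Alg F n) : (x + y).p = x.p + y.p := rfl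
@[simp] theorem add_c (x y : Alg F n) : (x + y).c = x.c + y.c := rfl
@[simp] theorem add_z (x y : Alg F n) : (x + y).z = x.z + y.z := rfl
@[simp] theorem sub_v (x y : Alg F n) : (x - y).v = x.v - y.v := rfl
@[simp] theorem sub_p (x y : Alg F n) : (x - y).p = x.p - y.p := rfl
@[simp] theorem sub_c (x y : Alg F n) : (x - y).c = x.c - y.c := rfl
@[simp] theorem sub_z (x y : Alg F n) : (x - y).z = x.z - y.z := rfl
@[simp] theorem neg_v (x : Alg F n) : (-x).v = -x.v := rfl
@[simp] theorem neg_p (x : Alg F n) : (-x).p = -x.p := rfl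
@[simp] theorem neg_c (x : Alg F n) : (-x).c = -x.c := rfl
@[simp] theorem neg_z (x : Alg F n) : (-x).z = -x.z := rfl
@[simp] theorem zero_v : (0 : Alg F n).v = 0 := rfl
@[simp] theorem zero_p : (0 : Alg F n).p = 0 := rfl
@[simp] theorem zero_c : (0 : Alg F n).c = 0 := rfl
@[simp] theorem zero_z : (0 : Alg F n).z = 0 := rfl
@[simp] theorem smul_v (r : F) (x : Alg F n) : (r • x).v = r • x.v := rfl
@[simp] theorem smul_p (r : F) (x : Alg F n) : (r • x).p = r • x.p := rfl
@[simp] theorem smul_c (r : F) (x : Alg F n) : (r • x).c = r • x.c := rfl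
@[simp] theorem smul_z (r : F) (x : Alg F n) : (r • x).z = r * x.z := rfl

/-- the product -/
noncomputable instance : Mul (Alg F n) := ⟨fun x y => mk 0
  (x.p * ExteriorAlgebra.ι F y.v + y.p * ExteriorAlgebra.ι F x.v)
  (ExteriorAlgebra.ι F x.v * y.c + ExteriorAlgebra.ι F y.v * x.c - (x.p * y.p + y.p * x.p))
  (top n (x.c * y.p) + top n (y.c * x.p))⟩

@[simp] theorem mul_v (x y : Alg F n) : (x * y).v = 0 := rfl
@[simp] theorem mul_p (x y : Alg F n) : (x * y).p =
  x.p * ExteriorAlgebra.ι F y.v + y.p * ExteriorAlgebra.ι F x.v := rfl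
@[simp] theorem mul_c (x y : Alg F n) : (x * y).c =
  ExteriorAlgebra.ι F x.v * y.c + ExteriorAlgebra.ι F y.v * x.c - (x.p * y.p + y.p * x.p) := rfl
@[simp] theorem mul_z (x y : Alg F n) : (x * y).z = top n (x.c * y.p) + top n (y.c * x.p) := rfl

noncomputable instance : NonUnitalNonAssocRing (Alg F n) :=
  { (inferInstance : AddCommGroup (Alg F n)), (inferInstance : Mul (Alg F n)) with
    left_distrib := fun x y w => by
      refine ext' ?_ ?_ ?_ ?_
      · simp
      · simp only [mul_p, add_p, add_v, map_add, mul_add, add_mul]; abel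
      · simp only [mul_c, add_c, add_p, add_v, map_add, mul_add, add_mul]; abel
      · simp only [mul_z, add_c, add_p, add_z, map_add, mul_add, add_mul]; abel
    right_distrib := fun x y w => by
      refine ext' ?_ ?_ ?_ ?_
      · simp
      · simp only [mul_p, add_p, add_v, map_add, mul_add, add_mul]; abel
      · simp only [mul_c, add_c, add_p, add_v, map_add, mul_add, add_mul]; abel
      · simp only [mul_z, add_c, add_p, add_z, map_add, mul_add, add_mul]; abel
    zero_mul := fun x => by
      refine ext' ?_ ?_ ?_ ?_ <;> simp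
    mul_zero := fun x => by
      refine ext' ?_ ?_ ?_ ?_ <;> simp }

theorem mul_comm' (x y : Alg F n) : x * y = y * x := by
  refine ext' ?_ ?_ ?_ ?_
  · simp
  · simp only [mul_p]; abel
  · simp only [mul_c]; abel
  · simp only [mul_z]; abel

instance : IsScalarTower F (Alg F n) (Alg F n) := ⟨fun r x y => by
  refine ext' ?_ ?_ ?_ ?_
  · simp
  · simp [mul_p, smul_p, smul_v]
  · simp [mul_c, smul_sub]
  · simp [mul_z, mul_add]⟩

instance : SMulCommClass F (Alg F n) (Alg F n) := ⟨fun r x y => by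
  refine ext' ?_ ?_ ?_ ?_
  · simp
  · simp [mul_p, smul_p, smul_v]
  · simp [mul_c, smul_sub]
  · simp [mul_z, mul_add]⟩

/-- the Jacobi identity -/
theorem jacobi [CharP F 3] (hn : Even n) (x y w : Alg F n) :
    (x * y) * w + (y * w) * x + (w * x) * y = 0 := by
  have key : ∀ a b d : Fin n → F, ∀ s : ExteriorAlgebra F (Fin n → F),
      s * ExteriorAlgebra.ι F a * ExteriorAlgebra.ι F b +
        s * ExteriorAlgebra.ι F b * ExteriorAlgebra.ι F a = 0 := by
    intro a b _ s
    rw [mul_assoc, mul_assoc, ← mul_add, ExteriorAlgebra.ι_add_mul_swap, mul_zero]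
  have key2 : ∀ a b : Fin n → F, ∀ s : ExteriorAlgebra F (Fin n → F),
      ExteriorAlgebra.ι F a * (ExteriorAlgebra.ι F b * s) +
        ExteriorAlgebra.ι F b * (ExteriorAlgebra.ι F a * s) = 0 := by
    intro a b s
    rw [← mul_assoc, ← mul_assoc, ← add_mul, ExteriorAlgebra.ι_add_mul_swap, zero_mul]
  refine ext' ?_ ?_ ?_ ?_
  · simp
  · simp only [add_p, mul_p, mul_v, map_zero, mul_zero, add_zero, add_mul, zero_p]
    have h1 := key x.v y.v 0 w.p
    have h2 := key y.v w.v 0 x.p
    have h3 := key w.v x.v 0 y.p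
    calc _ = (w.p * ExteriorAlgebra.ι F x.v * ExteriorAlgebra.ι F y.v +
        w.p * ExteriorAlgebra.ι F y.v * ExteriorAlgebra.ι F x.v) +
        (x.p * ExteriorAlgebra.ι F y.v * ExteriorAlgebra.ι F w.v +
        x.p * ExteriorAlgebra.ι F w.v * ExteriorAlgebra.ι F y.v) +
        (y.p * ExteriorAlgebra.ι F w.v * ExteriorAlgebra.ι F x.v +
        y.p * ExteriorAlgebra.ι F x.v * ExteriorAlgebra.ι F w.v) := by abel
      _ = 0 := by rw [h1, h2, h3]; simp
  · have h1 := key2 x.v y.v w.c
    have h2 := key2 y.v w.v x.c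
    have h3 := key2 w.v x.v y.c
    have s1 := S3_zero (ExteriorAlgebra.ι F w.v) x.p y.p
    have s2 := S3_zero (ExteriorAlgebra.ι F x.v) y.p w.p
    have s3 := S3_zero (ExteriorAlgebra.ι F y.v) w.p x.p
    unfold S3 at s1 s2 s3
    simp only [add_c, mul_c, mul_v, mul_p, map_zero, zero_mul, zero_add, zero_c, mul_add, add_mul,
      mul_sub, sub_mul]
    simp only [← mul_assoc] at *
    have e : ∀ A B C D E' G : ExteriorAlgebra F (Fin n → F), A = 0 → B = 0 → C = 0 → D = 0 →
      E' = 0 → G = 0 → A + B + C - D - E' - G = 0 := by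
      intro A B C D E' G h1 h2 h3 h4 h5 h6
      rw [h1, h2, h3, h4, h5, h6]; simp
    rw [← e _ _ _ _ _ _ h1 h2 h3 s1 s2 s3]
    abel
  · have s1 := S3_zero x.p y.p w.p
    unfold S3 at s1
    have k : ∀ (a : Fin n → F) (s t : ExteriorAlgebra F (Fin n → F)),
        top n (s * (t * ExteriorAlgebra.ι F a)) + top n (ExteriorAlgebra.ι F a * s * t) = 0 := by
      intro a s t
      rw [← mul_assoc, top_mul_ι hn, mul_assoc (ExteriorAlgebra.ι F a)]
      simp
    simp only [add_z, mul_z, mul_c, mul_p, mul_v, map_zero, mul_add, add_mul, sub_mul, map_add,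
      map_sub, zero_z]
    have s2 := congrArg (top n) s1
    simp only [map_add, map_zero] at s2
    have k1 := k y.v w.c x.p
    have k2 := k x.v w.c y.p
    have k3 := k w.v x.c y.p
    have k4 := k y.v x.c w.p
    have k5 := k w.v y.c x.p
    have k6 := k x.v y.c w.p
    linear_combination k1 + k2 + k3 + k4 + k5 + k6 - s2

end Alg

end Pool.Agent.H49R2
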