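import Pool.Agent.H49R2.Alg

/-!
The polynomials `ff` and their values on the algebras `Alg F n`.
-/

set_option autoImplicit false

namespace Pool.Agent.H49R2

universe u v

section general

variable {A : Type u} [NonUnitalNonAssocRing A]

/-- the left normed product `((x a₁) a₂) ⋯ a_k` -/
def word (x : A) (l : List A) : A := l.foldl (· * ·) x

/-- one summand of `ff` -/
def mon (x a b c d : A) (R1 R2 R3 : List A) : A :=
  (word x (a :: b :: R1) * word x (c :: R2)) * word x (d :: R3)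

/-- the polynomial -/
def ff (x a b c d : A) (R1 R2 R3 : List A) : A :=
  mon x a b c d R1 R2 R3 - mon x b a c d R1 R2 R3 - mon x a c b d R1 R2 R3
    + mon x a d b c R1 R2 R3

variable {B : Type v} [NonUnitalNonAssocRing B]

theorem map_word (φ : A → B) (h : ∀ x y, φ (x * y) = φ x * φ y) (x : A) (l : List A) :
    φ (word x l) = word (φ x) (l.map φ) := by
  unfold word
  induction l generalizing x with
  | nil => rfl
  | cons a l ih => simp only [List.foldl_cons, List.map_cons]; rw [ih, h]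

theorem map_mon (φ : A → B) (h : ∀ x y, φ (x * y) = φ x * φ y) (x a b c d : A)
    (R1 R2 R3 : List A) : φ (mon x a b c d R1 R2 R3) =
      mon (φ x) (φ a) (φ b) (φ c) (φ d) (R1.map φ) (R2.map φ) (R3.map φ) := by
  unfold mon
  simp only [h, map_word φ h, List.map_cons]

theorem map_ff (φ : A → B) (h : ∀ x y, φ (x * y) = φ x * φ y) (ha : ∀ x y, φ (x + y) = φ x + φ y)
    (hs : ∀ x y, φ (x - y) = φ x - φ y) (x a b c d : A)
    (R1 R2 R3 : List A) : φ (ff x a b c d R1 R2 R3) =
      ff (φ x) (φ a) (φ b) (φ c) (φ d) (R1.map φ) (R2.map φ) (R3.map φ) := by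
  unfold ff
  simp only [ha, hs, map_mon φ h]

end general

section ext

variable {F : Type u} [Field F] {M : Type u} [AddCommGroup M] [Module F M]

/-- the trilinear expression occurring in the products -/
noncomputable def tri (x y z : ExteriorAlgebra F M) : ExteriorAlgebra F M := -(x * y + y * x) * z

theorem tri_add_1 (x x' y z : ExteriorAlgebra F M) : tri (x + x') y z = tri x y z + tri x' y z := by
  unfold tri; simp only [add_mul, mul_add, neg_add, neg_mul]; abel

theorem tri_add_2 (x y y' z : ExteriorAlgebra F M) : tri x (y + y') z = tri x y z + tri x y' z := by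
  unfold tri; simp only [add_mul, mul_add, neg_add, neg_mul]; abel

theorem tri_add_3 (x y z z' : ExteriorAlgebra F M) : tri x y (z + z') = tri x y z + tri x y z' := by
  unfold tri; simp only [mul_add]

theorem tri_swap (x y z : ExteriorAlgebra F M) : tri x y z = tri y x z := by
  unfold tri; rw [add_comm (x * y)]

theorem YY (a : M) (b U b' U' : ExteriorAlgebra F M) :
    (b * ExteriorAlgebra.ι F a * U) * (b' * ExteriorAlgebra.ι F a * U') = 0 := by
  have h := ι_mul_mul_ι a (U * b')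
  calc _ = b * (ExteriorAlgebra.ι F a * (U * b') * ExteriorAlgebra.ι F a) * U' := by
        simp only [mul_assoc]
    _ = 0 := by rw [h]; simp

theorem YpY (a : M) (b U p b' U' : ExteriorAlgebra F M) :
    (b * ExteriorAlgebra.ι F a * U) * p * (b' * ExteriorAlgebra.ι F a * U') = 0 := by
  rw [mul_assoc _ U p, YY]

theorem tri_YY_12 (a : M) (b U b' U' z : ExteriorAlgebra F M) :
    tri (b * ExteriorAlgebra.ι F a * U) (b' * ExteriorAlgebra.ι F a * U') z = 0 := by
  unfold tri; rw [YY, YY]; simp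

theorem tri_YY_13 (a : M) (b U b' U' y : ExteriorAlgebra F M) :
    tri (b * ExteriorAlgebra.ι F a * U) y (b' * ExteriorAlgebra.ι F a * U') = 0 := by
  unfold tri
  rw [neg_mul, add_mul, YpY, mul_assoc y, YY]; simp

theorem tri_YY_23 (a : M) (b U b' U' x : ExteriorAlgebra F M) :
    tri x (b * ExteriorAlgebra.ι F a * U) (b' * ExteriorAlgebra.ι F a * U') = 0 := by
  rw [tri_swap, tri_YY_13]

variable [CharP F 3]

theorem neg_two (x : ExteriorAlgebra F M) : -(x + x) = x := by
  have h := three_smul_eq_zero x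
  have : -(x + x) = x - (x + x + x) := by abel
  rw [this, h, sub_zero]

theorem sym2 (Y α : ExteriorAlgebra F M) : Y * α * α + α * Y * α = -(α * α * Y) := by
  have h := S3_zero Y α α
  unfold S3 at h
  have e : Y * α * α + Y * α * α + α * Y * α + α * α * Y + α * Y * α + α * α * Y =
    ((Y * α * α + α * Y * α) + (Y * α * α + α * Y * α)) + (α * α * Y + α * α * Y) := by abel
  rw [e] at h
  have h2 : (Y * α * α + α * Y * α) + (Y * α * α + α * Y * α) = -(Y * α * α + α * Y * α) := by
    rw [eq_neg_iff_add_eq_zero]; exact three_smul_eq_zero _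
  have h3 : (α * α * Y) + (α * α * Y) = -(α * α * Y) := by
    rw [eq_neg_iff_add_eq_zero]; exact three_smul_eq_zero _
  rw [h2, h3, ← neg_add, neg_eq_zero] at h
  exact eq_neg_of_add_eq_zero_left h

/-- the terms with one `Y` in front -/
theorem tri_Y1 {B2 : ExteriorAlgebra F M} (h2 : sg B2 = B2)
    (B3 Y α : ExteriorAlgebra F M) :
    tri Y (α * B2) (α * B3) = α * α * Y * (B2 * B3) := by
  unfold tri
  have c2 : ∀ x, B2 * x = x * B2 := even_comm h2
  have e1 : Y * (α * B2) * (α * B3) = (Y * α * α) * (B2 * B3) := by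
    rw [← mul_assoc Y, mul_assoc (Y * α), ← mul_assoc B2, c2 α]
    simp only [mul_assoc]
  have e2 : α * B2 * Y * (α * B3) = (α * Y * α) * (B2 * B3) := by
    rw [mul_assoc α, c2 Y, ← mul_assoc α, mul_assoc (α * Y), ← mul_assoc B2, c2 α]
    simp only [mul_assoc]
  rw [neg_mul, add_mul, e1, e2, ← add_mul, sym2, neg_mul, neg_neg]

/-- the terms with one `Y` at the end -/
theorem tri_Y3 {B1 B2 : ExteriorAlgebra F M} (h1 : sg B1 = B1) (h2 : sg B2 = B2)
    (Y α : ExteriorAlgebra F M) :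
    tri (α * B1) (α * B2) Y = α * α * Y * (B1 * B2) := by
  unfold tri
  have c2 : ∀ x, B2 * x = x * B2 := even_comm h2
  have c1 : ∀ x, B1 * x = x * B1 := even_comm h1
  have e1 : α * B1 * (α * B2) = α * α * (B1 * B2) := by
    rw [mul_assoc α, ← mul_assoc B1, c1 α]; simp only [mul_assoc]
  have e2 : α * B2 * (α * B1) = α * α * (B1 * B2) := by
    rw [mul_assoc α, ← mul_assoc B2, c2 α, c1 B2]; simp only [mul_assoc]
  rw [e1, e2, neg_two]
  have h12 : sg (B1 * B2) = B1 * B2 := by rw [sg_mul, h1, h2]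
  rw [mul_assoc (α * α), even_comm h12 Y]
  simp only [mul_assoc]

/-- value of the trilinear expression -/
theorem tri_value {B1 B2 B3 : ExteriorAlgebra F M} (h1 : sg B1 = B1) (h2 : sg B2 = B2)
    (h3 : sg B3 = B3) (a : M) (α b1 U1 b2 U2 b3 U3 : ExteriorAlgebra F M) :
    tri (α * B1 + b1 * ExteriorAlgebra.ι F a * U1) (α * B2 + b2 * ExteriorAlgebra.ι F a * U2)
      (α * B3 + b3 * ExteriorAlgebra.ι F a * U3) =
    α * α * α * (B1 * B2 * B3) +
      α * α * (b1 * ExteriorAlgebra.ι F a * U1) * (B2 * B3) +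
      α * α * (b2 * ExteriorAlgebra.ι F a * U2) * (B1 * B3) +
      α * α * (b3 * ExteriorAlgebra.ι F a * U3) * (B1 * B2) := by
  simp only [tri_add_1, tri_add_2, tri_add_3, tri_YY_12, tri_YY_13, tri_YY_23, add_zero]
  rw [tri_Y1 h2 B3 (b1 * ExteriorAlgebra.ι F a * U1),
    tri_swap (α * B1) (b2 * ExteriorAlgebra.ι F a * U2), tri_Y1 h1 B3,
    tri_Y3 h1 h2 (b3 * ExteriorAlgebra.ι F a * U3)]
  have e : tri (α * B1) (α * B2) (α * B3) = α * α * α * (B1 * B2 * B3) := by
    rw [tri_Y1 h2 B3]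
    simp only [mul_assoc]
  rw [e]
  

/-- the product of four vectors and an element -/
noncomputable def Th (ρ : ExteriorAlgebra F M) (a b c d : M) : ExteriorAlgebra F M :=
  ExteriorAlgebra.ι F a * ExteriorAlgebra.ι F b * ExteriorAlgebra.ι F c * ExteriorAlgebra.ι F d * ρ

omit [CharP F 3] in
theorem ι_swap (a b : M) : ExteriorAlgebra.ι F a * ExteriorAlgebra.ι F b =
    -(ExteriorAlgebra.ι F b * ExteriorAlgebra.ι F a) :=
  eq_neg_of_add_eq_zero_left (ExteriorAlgebra.ι_add_mul_swap a b)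

omit [CharP F 3] in
theorem Th_12 (ρ : ExteriorAlgebra F M) (a b c d : M) : Th ρ a b c d = -Th ρ b a c d := by
  unfold Th; rw [ι_swap a b]; simp only [neg_mul]

omit [CharP F 3] in
theorem Th_23 (ρ : ExteriorAlgebra F M) (a b c d : M) : Th ρ a b c d = -Th ρ a c b d := by
  unfold Th
  rw [mul_assoc (ExteriorAlgebra.ι F a), ι_swap b c]
  simp only [neg_mul, mul_neg, mul_assoc]

omit [CharP F 3] in
theorem Th_34 (ρ : ExteriorAlgebra F M) (a b c d : M) : Th ρ a b c d = -Th ρ a b d c := by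
  unfold Th
  rw [mul_assoc (ExteriorAlgebra.ι F a * ExteriorAlgebra.ι F b), ι_swap c d]
  simp only [neg_mul, mul_neg, mul_assoc]

omit [CharP F 3] in
/-- normal form of the product of the three blocks -/
theorem blocks {r1 r2 : ExteriorAlgebra F M} (h1 : sg r1 = r1) (h2 : sg r2 = -r2)
    (r3 : ExteriorAlgebra F M) (a b c d : M) :
    (ExteriorAlgebra.ι F a * (ExteriorAlgebra.ι F b * r1)) * (ExteriorAlgebra.ι F c * r2) *
      (ExteriorAlgebra.ι F d * r3) = -Th (r1 * r2 * r3) a b c d := by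
  unfold Th
  have c1 : ∀ x, r1 * x = x * r1 := even_comm h1
  have c2 : r2 * ExteriorAlgebra.ι F d = -(ExteriorAlgebra.ι F d * r2) := by
    rw [mul_ι_eq, h2, mul_neg]
  calc _ = ExteriorAlgebra.ι F a * ExteriorAlgebra.ι F b * (r1 * ExteriorAlgebra.ι F c) *
        (r2 * ExteriorAlgebra.ι F d) * r3 := by simp only [mul_assoc]
    _ = -(ExteriorAlgebra.ι F a * ExteriorAlgebra.ι F b * ExteriorAlgebra.ι F c *
        (r1 * ExteriorAlgebra.ι F d) * r2 * r3) := by
        rw [c1, c2]; simp only [mul_assoc, mul_neg, neg_mul]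
    _ = _ := by rw [c1]; simp only [mul_assoc]

/-- value of a summand, at the level of the exterior algebra -/
theorem tri_blocks {r1 r2 r3 : ExteriorAlgebra F M} (h1 : sg r1 = r1) (h2 : sg r2 = -r2)
    (h3 : sg r3 = -r3) (x : M) (α : ExteriorAlgebra F M) (a b c d : M)
    (βa βc βd : ExteriorAlgebra F M) :
    tri ((α * ExteriorAlgebra.ι F a + βa * ExteriorAlgebra.ι F x) * (ExteriorAlgebra.ι F b * r1))
      ((α * ExteriorAlgebra.ι F c + βc * ExteriorAlgebra.ι F x) * r2)
      ((α * ExteriorAlgebra.ι F d + βd * ExteriorAlgebra.ι F x) * r3) =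
    -(α * α * α * Th (r1 * r2 * r3) a b c d + α * α * βa * Th (r1 * r2 * r3) x b c d
      + α * α * βc * Th (r1 * r2 * r3) a b x d + α * α * βd * Th (r1 * r2 * r3) a b c x) := by
  have e1 : sg (ExteriorAlgebra.ι F a * (ExteriorAlgebra.ι F b * r1)) =
      ExteriorAlgebra.ι F a * (ExteriorAlgebra.ι F b * r1) := by
    rw [sg_mul, sg_mul, sg_ι, sg_ι, h1]; simp
  have e2 : sg (ExteriorAlgebra.ι F c * r2) = ExteriorAlgebra.ι F c * r2 := by
    rw [sg_mul, sg_ι, h2]; simp
  have e3 : sg (ExteriorAlgebra.ι F d * r3) = ExteriorAlgebra.ι F d * r3 := by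
    rw [sg_mul, sg_ι, h3]; simp
  have e2x : sg (ExteriorAlgebra.ι F x * r2) = ExteriorAlgebra.ι F x * r2 := by
    rw [sg_mul, sg_ι, h2]; simp
  have e3x : sg (ExteriorAlgebra.ι F x * r3) = ExteriorAlgebra.ι F x * r3 := by
    rw [sg_mul, sg_ι, h3]; simp
  have key := tri_value e1 e2 e3 x α βa (ExteriorAlgebra.ι F b * r1) βc r2 βd r3
  have l : ∀ (s : M) (β t : ExteriorAlgebra F M),
      (α * ExteriorAlgebra.ι F s + β * ExteriorAlgebra.ι F x) * t =
        α * (ExteriorAlgebra.ι F s * t) + β * ExteriorAlgebra.ι F x * t := by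
    intro s β t; rw [add_mul, mul_assoc]
  rw [l, l, l, key]
  have t1 : α * α * (βa * ExteriorAlgebra.ι F x * (ExteriorAlgebra.ι F b * r1)) *
      (ExteriorAlgebra.ι F c * r2 * (ExteriorAlgebra.ι F d * r3)) =
      α * α * βa * -Th (r1 * r2 * r3) x b c d := by
    rw [← blocks h1 h2]; simp only [mul_assoc]
  have t2 : α * α * (βc * ExteriorAlgebra.ι F x * r2) *
      (ExteriorAlgebra.ι F a * (ExteriorAlgebra.ι F b * r1) * (ExteriorAlgebra.ι F d * r3)) =
      α * α * βc * -Th (r1 * r2 * r3) a b x d := by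
    rw [← blocks h1 h2, ← even_comm e2x]; simp only [mul_assoc]
  have t3 : α * α * (βd * ExteriorAlgebra.ι F x * r3) *
      (ExteriorAlgebra.ι F a * (ExteriorAlgebra.ι F b * r1) * (ExteriorAlgebra.ι F c * r2)) =
      α * α * βd * -Th (r1 * r2 * r3) a b c x := by
    rw [← blocks h1 h2, ← even_comm e3x]; simp only [mul_assoc]
  rw [t1, t2, t3, blocks h1 h2]
  simp only [mul_neg, neg_add]

/-- the alternating sum of four summands -/
theorem tri_sum {r1 r2 r3 : ExteriorAlgebra F M} (h1 : sg r1 = r1) (h2 : sg r2 = -r2)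
    (h3 : sg r3 = -r3) (x : M) (α : ExteriorAlgebra F M) (a b c d : M)
    (βa βb βc βd : ExteriorAlgebra F M) :
    tri ((α * ExteriorAlgebra.ι F a + βa * ExteriorAlgebra.ι F x) * (ExteriorAlgebra.ι F b * r1))
      ((α * ExteriorAlgebra.ι F c + βc * ExteriorAlgebra.ι F x) * r2)
      ((α * ExteriorAlgebra.ι F d + βd * ExteriorAlgebra.ι F x) * r3) -
    tri ((α * ExteriorAlgebra.ι F b + βb * ExteriorAlgebra.ι F x) * (ExteriorAlgebra.ι F a * r1))
      ((α * ExteriorAlgebra.ι F c + βc * ExteriorAlgebra.ι F x) * r2)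
      ((α * ExteriorAlgebra.ι F d + βd * ExteriorAlgebra.ι F x) * r3) -
    tri ((α * ExteriorAlgebra.ι F a + βa * ExteriorAlgebra.ι F x) * (ExteriorAlgebra.ι F c * r1))
      ((α * ExteriorAlgebra.ι F b + βb * ExteriorAlgebra.ι F x) * r2)
      ((α * ExteriorAlgebra.ι F d + βd * ExteriorAlgebra.ι F x) * r3) +
    tri ((α * ExteriorAlgebra.ι F a + βa * ExteriorAlgebra.ι F x) * (ExteriorAlgebra.ι F d * r1))
      ((α * ExteriorAlgebra.ι F b + βb * ExteriorAlgebra.ι F x) * r2)
      ((α * ExteriorAlgebra.ι F c + βc * ExteriorAlgebra.ι F x) * r3) =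
    -(α * α * α * Th (r1 * r2 * r3) a b c d) := by
  rw [tri_blocks h1 h2 h3, tri_blocks h1 h2 h3, tri_blocks h1 h2 h3, tri_blocks h1 h2 h3]
  generalize r1 * r2 * r3 = ρ
  have q1 : Th ρ b a c d = -Th ρ a b c d := by rw [Th_12]
  have q2 : Th ρ a c b d = -Th ρ a b c d := by rw [Th_23]
  have q3 : Th ρ a d b c = Th ρ a b c d := by rw [Th_23, Th_34, neg_neg]
  have a1 : Th ρ x c b d = -Th ρ x b c d := by rw [Th_23]
  have a2 : Th ρ x d b c = Th ρ x b c d := by rw [Th_23, Th_34, neg_neg]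
  have b1 : Th ρ x a c d = -Th ρ a x c d := by rw [Th_12]
  have b2 : Th ρ a c x d = -Th ρ a x c d := by rw [Th_23]
  have b3 : Th ρ a d x c = Th ρ a x c d := by rw [Th_23, Th_34, neg_neg]
  have c1 : Th ρ b a x d = -Th ρ a b x d := by rw [Th_12]
  have c2 : Th ρ a d b x = Th ρ a b x d := by rw [Th_23, Th_34, neg_neg]
  have d1 : Th ρ b a c x = -Th ρ a b c x := by rw [Th_12]
  have d2 : Th ρ a c b x = -Th ρ a b c x := by rw [Th_23]
  rw [q1, q2, q3, a1, a2, b1, b2, b3, c1, c2, d1, d2]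
  simp only [mul_neg]
  have z0 := three_smul_eq_zero (α * α * α * Th ρ a b c d)
  have z1 := three_smul_eq_zero (α * α * βa * Th ρ x b c d)
  have z2 := three_smul_eq_zero (α * α * βb * Th ρ a x c d)
  have z3 := three_smul_eq_zero (α * α * βc * Th ρ a b x d)
  have z4 := three_smul_eq_zero (α * α * βd * Th ρ a b c x)
  generalize α * α * α * Th ρ a b c d = P at *
  generalize α * α * βa * Th ρ x b c d = Qa at *
  generalize α * α * βb * Th ρ a x c d = Qb at *
  generalize α * α * βc * Th ρ a b x d = Qc at *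
  generalize α * α * βd * Th ρ a b c x = Qd at *
  calc _ = -P - (P + P + P) - (Qa + Qa + Qa) - (Qb + Qb + Qb) - (Qc + Qc + Qc) -
        (Qd + Qd + Qd) := by abel
    _ = -P := by rw [z0, z1, z2, z3, z4]; simp

end ext

end Pool.Agent.H49R2
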