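import Mathlib

/-!
Facts on exterior algebras over fields of characteristic three.
-/

set_option autoImplicit false

namespace Pool.Agent.H49R2

universe u

section ext

variable {F : Type u} [Field F] {M : Type u} [AddCommGroup M] [Module F M]

/-- the grade involution -/
noncomputable abbrev sg (x : ExteriorAlgebra F M) : ExteriorAlgebra F M :=
  CliffordAlgebra.involute (Q := (0 : QuadraticForm F M)) x

theorem sg_sg (x : ExteriorAlgebra F M) : sg (sg x) = x :=
  CliffordAlgebra.involute_involute x

theorem sg_mul (x y : ExteriorAlgebra F M) : sg (x * y) = sg x * sg y := map_mul _ x y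

theorem sg_add (x y : ExteriorAlgebra F M) : sg (x + y) = sg x + sg y := map_add _ x y

theorem sg_neg (x : ExteriorAlgebra F M) : sg (-x) = -sg x := map_neg _ x

theorem sg_ι (v : M) : sg (ExteriorAlgebra.ι F v) = -ExteriorAlgebra.ι F v :=
  CliffordAlgebra.involute_ι v

theorem sg_algebraMap (r : F) :
    sg (algebraMap F (ExteriorAlgebra F M) r) = algebraMap F (ExteriorAlgebra F M) r :=
  AlgHom.commutes _ r

/-- moving a vector through an element -/
theorem ι_mul_eq (v : M) (x : ExteriorAlgebra F M) :
    ExteriorAlgebra.ι F v * x = sg x * ExteriorAlgebra.ι F v := by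
  induction x using ExteriorAlgebra.induction with
  | algebraMap r => rw [sg_algebraMap]; exact (Algebra.commutes r _).symm
  | ι w =>
    rw [sg_ι, neg_mul]
    exact eq_neg_of_add_eq_zero_left (ExteriorAlgebra.ι_add_mul_swap v w)
  | mul a b ha hb => rw [sg_mul, ← mul_assoc, ha, mul_assoc, hb, mul_assoc]
  | add a b ha hb => rw [sg_add, mul_add, add_mul, ha, hb]

theorem mul_ι_eq (v : M) (x : ExteriorAlgebra F M) :
    x * ExteriorAlgebra.ι F v = ExteriorAlgebra.ι F v * sg x := by
  rw [ι_mul_eq, sg_sg]

/-- even elements are central -/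
theorem even_comm {x : ExteriorAlgebra F M} (hx : sg x = x) (y : ExteriorAlgebra F M) :
    x * y = y * x := by
  induction y using ExteriorAlgebra.induction with
  | algebraMap r => exact (Algebra.commutes r _).symm
  | ι w => rw [ι_mul_eq, hx]
  | mul a b ha hb => rw [← mul_assoc, ha, mul_assoc, hb, mul_assoc]
  | add a b ha hb => rw [mul_add, add_mul, ha, hb]

/-- odd elements -/
theorem odd_comm {x : ExteriorAlgebra F M} (hx : sg x = -x) (y : ExteriorAlgebra F M) :
    x * y = sg y * x := by
  induction y using ExteriorAlgebra.induction with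
  | algebraMap r => rw [sg_algebraMap]; exact (Algebra.commutes r _).symm
  | ι w => rw [mul_ι_eq, hx, sg_ι, mul_neg, neg_mul]
  | mul a b ha hb => rw [sg_mul, ← mul_assoc, ha, mul_assoc, hb, mul_assoc]
  | add a b ha hb => rw [sg_add, mul_add, add_mul, ha, hb]

theorem three_smul_eq_zero [CharP F 3] (x : ExteriorAlgebra F M) : x + x + x = 0 := by
  have h3 : (3 : F) = 0 := by exact_mod_cast CharP.cast_eq_zero F 3
  have h : x + x + x = (3 : F) • x := by
    rw [show (3 : F) = 1 + 1 + 1 by norm_num, add_smul, add_smul, one_smul]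
  rw [h, h3, zero_smul]

/-- the even part -/
noncomputable def ev (x : ExteriorAlgebra F M) : ExteriorAlgebra F M := -(x + sg x)
/-- the odd part -/
noncomputable def od (x : ExteriorAlgebra F M) : ExteriorAlgebra F M := -(x - sg x)

theorem ev_add_od [CharP F 3] (x : ExteriorAlgebra F M) : ev x + od x = x := by
  have := three_smul_eq_zero x
  unfold ev od
  have h : -(x + sg x) + -(x - sg x) = x - (x + x + x) := by abel
  rw [h, this, sub_zero]

theorem sg_ev (x : ExteriorAlgebra F M) : sg (ev x) = ev x := by
  unfold ev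
  rw [sg_neg, sg_add, sg_sg, add_comm]

theorem sg_od (x : ExteriorAlgebra F M) : sg (od x) = -od x := by
  unfold od
  rw [sub_eq_add_neg, sg_neg, sg_add, sg_neg, sg_sg]
  abel

/-- the symmetrisation of the cube -/
def S3 (x y z : ExteriorAlgebra F M) : ExteriorAlgebra F M :=
  x * y * z + x * z * y + y * x * z + y * z * x + z * x * y + z * y * x

theorem S3_add (x x' y z : ExteriorAlgebra F M) : S3 (x + x') y z = S3 x y z + S3 x' y z := by
  unfold S3; simp only [add_mul, mul_add]; abel

theorem S3_swap (x y z : ExteriorAlgebra F M) : S3 x y z = S3 y x z := by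
  unfold S3; abel

theorem S3_rot (x y z : ExteriorAlgebra F M) : S3 x y z = S3 y z x := by
  unfold S3; abel

theorem S3_even [CharP F 3] {x : ExteriorAlgebra F M} (hx : sg x = x)
    (y z : ExteriorAlgebra F M) : S3 x y z = 0 := by
  unfold S3
  have h1 : y * x * z = x * y * z := by rw [even_comm hx y]
  have h2 : y * z * x = x * y * z := by rw [mul_assoc x, even_comm hx (y * z)]
  have h3 : z * x * y = x * z * y := by rw [even_comm hx z]
  have h4 : z * y * x = x * z * y := by rw [mul_assoc x, even_comm hx (z * y)]
  rw [h1, h2, h3, h4]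
  have e : x * y * z + x * z * y + x * y * z + x * y * z + x * z * y + x * z * y =
    (x * y * z + x * y * z + x * y * z) + (x * z * y + x * z * y + x * z * y) := by abel
  rw [e, three_smul_eq_zero, three_smul_eq_zero, add_zero]

theorem S3_odd {x y z : ExteriorAlgebra F M} (hx : sg x = -x) (hy : sg y = -y) (hz : sg z = -z) :
    S3 x y z = 0 := by
  unfold S3
  have hxz : x * z = -(z * x) := by rw [odd_comm hx, hz, neg_mul]
  have hyx : y * x = -(x * y) := by rw [odd_comm hy, hx, neg_mul]
  have hyz : y * z = -(z * y) := by rw [odd_comm hy, hz, neg_mul]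
  have h1 : x * z * y = -(x * y * z) := by rw [mul_assoc x y z, hyz, mul_neg, neg_neg, mul_assoc]
  have h2 : y * x * z = -(x * y * z) := by rw [hyx, neg_mul]
  have h3 : y * z * x = x * y * z := by
    rw [mul_assoc y z x, show z * x = -(x * z) by rw [hxz, neg_neg], mul_neg, ← mul_assoc, hyx,
      neg_mul, neg_neg]
  have h4 : z * x * y = x * y * z := by
    rw [show z * x = -(x * z) by rw [hxz, neg_neg], neg_mul, h1, neg_neg]
  have h5 : z * y * x = -(x * y * z) := by
    rw [show z * y = -(y * z) by rw [hyz, neg_neg], neg_mul, h3]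
  rw [h1, h2, h3, h4, h5]
  abel

theorem S3_zero [CharP F 3] (x y z : ExteriorAlgebra F M) : S3 x y z = 0 := by
  have e1 : S3 x y z = S3 (od x) y z := by
    conv_lhs => rw [← ev_add_od x]
    rw [S3_add, S3_even (sg_ev x), zero_add]
  have e2 : S3 (od x) y z = S3 (od x) (od y) z := by
    rw [S3_swap (od x) y z, S3_swap (od x) (od y) z]
    conv_lhs => rw [← ev_add_od y]
    rw [S3_add, S3_even (sg_ev y), zero_add]
  have e3 : S3 (od x) (od y) z = S3 (od x) (od y) (od z) := by
    rw [S3_rot, S3_rot (od y), S3_rot (od x) (od y) (od z), S3_rot (od y) (od z) (od x)]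
    conv_lhs => rw [← ev_add_od z]
    rw [S3_add, S3_even (sg_ev z), zero_add]
  rw [e1, e2, e3, S3_odd (sg_od x) (sg_od y) (sg_od z)]

/-- augmentation -/
noncomputable abbrev aug (x : ExteriorAlgebra F M) : F := ExteriorAlgebra.algebraMapInv x

theorem cube_add [CharP F 3] (x y : ExteriorAlgebra F M) :
    (x + y) * (x + y) * (x + y) = x * x * x + y * y * y := by
  have h1 := S3_zero x x y
  have h2 := S3_zero x y y
  unfold S3 at h1 h2
  have e1 : x * x * y + x * y * x + y * x * x = 0 := by
    have a := three_smul_eq_zero (x * x * y + x * y * x + y * x * x)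
    have b : x * x * y + x * y * x + x * x * y + x * y * x + y * x * x + y * x * x =
      (x * x * y + x * y * x + y * x * x) + (x * x * y + x * y * x + y * x * x) := by abel
    rw [b] at h1
    rw [h1, zero_add] at a
    exact a
  have e2 : x * y * y + y * x * y + y * y * x = 0 := by
    have a := three_smul_eq_zero (x * y * y + y * x * y + y * y * x)
    have b : x * y * y + x * y * y + y * x * y + y * y * x + y * x * y + y * y * x =
      (x * y * y + y * x * y + y * y * x) + (x * y * y + y * x * y + y * y * x) := by abel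
    rw [b] at h2
    rw [h2, zero_add] at a
    exact a
  have e : (x + y) * (x + y) * (x + y) = x * x * x + y * y * y +
      (x * x * y + x * y * x + y * x * x) + (x * y * y + y * x * y + y * y * x) := by
    simp only [add_mul, mul_add]; abel
  rw [e, e1, e2, add_zero, add_zero]

theorem ι_mul_mul_ι (v : M) (x : ExteriorAlgebra F M) :
    ExteriorAlgebra.ι F v * x * ExteriorAlgebra.ι F v = 0 := by
  rw [mul_assoc, mul_ι_eq, ← mul_assoc, ExteriorAlgebra.ι_sq_zero, zero_mul]

/-- cubes are scalars in characteristic three -/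
theorem cube_eq [CharP F 3] (x : ExteriorAlgebra F M) :
    x * x * x = algebraMap F _ (aug x ^ 3) := by
  induction x using CliffordAlgebra.left_induction with
  | algebraMap r =>
    have : aug (algebraMap F (ExteriorAlgebra F M) r) = r :=
      ExteriorAlgebra.algebraMap_leftInverse M r
    change algebraMap F (ExteriorAlgebra F M) r * algebraMap F (ExteriorAlgebra F M) r *
      algebraMap F (ExteriorAlgebra F M) r = _
    rw [← map_mul, ← map_mul]
    congr 1
    change _ = aug (algebraMap F (ExteriorAlgebra F M) r) ^ 3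
    rw [this]; ring
  | add x y hx hy =>
    rw [cube_add, hx, hy, ← map_add]
    congr 1
    have : aug (x + y) = aug x + aug y := map_add _ x y
    change aug x ^ 3 + aug y ^ 3 = aug (x + y) ^ 3
    have h3 : (3 : F) = 0 := by exact_mod_cast CharP.cast_eq_zero F 3
    rw [this]
    linear_combination (-(aug x ^ 2 * aug y) - aug x * aug y ^ 2) * h3
  | ι_mul x v hx =>
    have h0 : aug (ExteriorAlgebra.ι F v * x) = 0 := by
      have h1 : aug (ExteriorAlgebra.ι F v * x) = aug (ExteriorAlgebra.ι F v) * aug x :=
        map_mul _ _ _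
      have h2 : aug (ExteriorAlgebra.ι F v) = 0 := by
        simp [aug, ExteriorAlgebra.algebraMapInv]
      rw [h1, h2, zero_mul]
    have h4 : (ExteriorAlgebra.ι F v * x) * (ExteriorAlgebra.ι F v * x) = 0 := by
      rw [← mul_assoc, ι_mul_mul_ι, zero_mul]
    change (ExteriorAlgebra.ι F v * x) * (ExteriorAlgebra.ι F v * x) *
      (ExteriorAlgebra.ι F v * x) = algebraMap F _ (aug (ExteriorAlgebra.ι F v * x) ^ 3)
    rw [h4, h0, zero_mul, zero_pow (by norm_num), map_zero]

end ext

end Pool.Agent.H49R2
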