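import Mathlib

/-!
Reduced products of (nonassociative) algebras and identities.
-/

set_option autoImplicit false

namespace Pool.Agent.H49R2

universe u v

open Filter

section

variable (F : Type u) [Field F] (A : ℕ → Type v) [∀ i, NonUnitalNonAssocRing (A i)]
  [∀ i, Module F (A i)] [∀ i, IsScalarTower F (A i) (A i)] [∀ i, SMulCommClass F (A i) (A i)]

/-- the sequences that vanish eventually -/
def evz : Submodule F (∀ i, A i) where
  carrier := {x | ∀ᶠ i in atTop, x i = 0}
  add_mem' := fun {x y} hx hy => by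
    change ∀ᶠ i in atTop, (x + y) i = 0
    filter_upwards [hx, hy] with i h1 h2
    rw [Pi.add_apply, h1, h2, add_zero]
  zero_mem' := by
    change ∀ᶠ i in atTop, (0 : ∀ i, A i) i = 0
    exact Eventually.of_forall fun i => rfl
  smul_mem' := fun r x hx => by
    change ∀ᶠ i in atTop, (r • x) i = 0
    filter_upwards [hx] with i h1
    rw [Pi.smul_apply, h1, smul_zero]

omit [∀ i, IsScalarTower F (A i) (A i)] [∀ i, SMulCommClass F (A i) (A i)] in
theorem mem_evz (x : ∀ i, A i) : x ∈ evz F A ↔ ∀ᶠ i in atTop, x i = 0 := Iff.rfl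

/-- the reduced product modulo the filter of cofinite sets -/
def Red : Type v := (∀ i, A i) ⧸ (evz F A)

noncomputable instance : AddCommGroup (Red F A) :=
  inferInstanceAs (AddCommGroup ((∀ i, A i) ⧸ (evz F A)))
noncomputable instance : Module F (Red F A) :=
  inferInstanceAs (Module F ((∀ i, A i) ⧸ (evz F A)))

variable {A}

/-- the class of a sequence -/
def Red.mk (x : ∀ i, A i) : Red F A := Submodule.Quotient.mk x

omit [∀ i, IsScalarTower F (A i) (A i)] [∀ i, SMulCommClass F (A i) (A i)] in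
theorem Red.mk_surj (x : Red F A) : ∃ y : ∀ i, A i, Red.mk F y = x :=
  Submodule.Quotient.mk_surjective _ x

omit [∀ i, IsScalarTower F (A i) (A i)] [∀ i, SMulCommClass F (A i) (A i)] in
theorem Red.mk_eq {x y : ∀ i, A i} : Red.mk F x = Red.mk F y ↔ ∀ᶠ i in atTop, x i = y i := by
  refine Iff.trans (Submodule.Quotient.eq (evz F A)) ?_
  rw [mem_evz]
  refine ⟨fun h => ?_, fun h => ?_⟩
  · filter_upwards [h] with i hi
    exact sub_eq_zero.1 hi
  · filter_upwards [h] with i hi
    exact sub_eq_zero.2 hi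

omit [∀ i, IsScalarTower F (A i) (A i)] [∀ i, SMulCommClass F (A i) (A i)] in
theorem Red.mk_add (x y : ∀ i, A i) : Red.mk F (x + y) = Red.mk F x + Red.mk F y := rfl

omit [∀ i, IsScalarTower F (A i) (A i)] [∀ i, SMulCommClass F (A i) (A i)] in
theorem Red.mk_smul (r : F) (x : ∀ i, A i) : Red.mk F (r • x) = r • Red.mk F x := rfl

omit [∀ i, IsScalarTower F (A i) (A i)] [∀ i, SMulCommClass F (A i) (A i)] in
theorem Red.mk_zero : Red.mk F (0 : ∀ i, A i) = 0 := rfl

variable (A)

noncomputable instance : Mul (Red F A) :=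
  ⟨fun a b => Red.mk F (fun i => (Red.mk_surj F a).choose i * (Red.mk_surj F b).choose i)⟩

variable {A}

omit [∀ i, IsScalarTower F (A i) (A i)] [∀ i, SMulCommClass F (A i) (A i)] in
theorem Red.mk_mul (x y : ∀ i, A i) : Red.mk F (x * y) = Red.mk F x * Red.mk F y := by
  change _ = Red.mk F (fun i => (Red.mk_surj F (Red.mk F x)).choose i *
    (Red.mk_surj F (Red.mk F y)).choose i)
  rw [Red.mk_eq]
  have h1 := (Red.mk_eq F).1 (Red.mk_surj F (Red.mk F x)).choose_spec
  have h2 := (Red.mk_eq F).1 (Red.mk_surj F (Red.mk F y)).choose_spec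
  filter_upwards [h1, h2] with i h1 h2
  rw [h1, h2, Pi.mul_apply]

variable (A)

noncomputable instance : NonUnitalNonAssocRing (Red F A) :=
  { (inferInstance : AddCommGroup (Red F A)), (inferInstance : Mul (Red F A)) with
    left_distrib := fun x y w => by
      obtain ⟨x, rfl⟩ := Red.mk_surj F x
      obtain ⟨y, rfl⟩ := Red.mk_surj F y
      obtain ⟨w, rfl⟩ := Red.mk_surj F w
      rw [← Red.mk_add, ← Red.mk_mul, ← Red.mk_mul, ← Red.mk_mul, ← Red.mk_add, mul_add]
    right_distrib := fun x y w => by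
      obtain ⟨x, rfl⟩ := Red.mk_surj F x
      obtain ⟨y, rfl⟩ := Red.mk_surj F y
      obtain ⟨w, rfl⟩ := Red.mk_surj F w
      rw [← Red.mk_add, ← Red.mk_mul, ← Red.mk_mul, ← Red.mk_mul, ← Red.mk_add, add_mul]
    zero_mul := fun x => by
      obtain ⟨x, rfl⟩ := Red.mk_surj F x
      rw [← Red.mk_zero F (A := A), ← Red.mk_mul, zero_mul]
    mul_zero := fun x => by
      obtain ⟨x, rfl⟩ := Red.mk_surj F x
      rw [← Red.mk_zero F (A := A), ← Red.mk_mul, mul_zero] }

instance : IsScalarTower F (Red F A) (Red F A) := ⟨fun r x y => by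
  obtain ⟨x, rfl⟩ := Red.mk_surj F x
  obtain ⟨y, rfl⟩ := Red.mk_surj F y
  rw [smul_eq_mul, smul_eq_mul, ← Red.mk_smul, ← Red.mk_mul, ← Red.mk_mul, ← Red.mk_smul]
  congr 1
  funext i
  simp [smul_mul_assoc]⟩

instance : SMulCommClass F (Red F A) (Red F A) := ⟨fun r x y => by
  obtain ⟨x, rfl⟩ := Red.mk_surj F x
  obtain ⟨y, rfl⟩ := Red.mk_surj F y
  rw [smul_eq_mul, smul_eq_mul, ← Red.mk_smul, ← Red.mk_mul, ← Red.mk_mul, ← Red.mk_smul]
  congr 1
  funext i
  simp [mul_smul_comm]⟩

instance : IsScalarTower F (∀ i, A i) (∀ i, A i) := ⟨fun r x y => by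
  funext i; simp [smul_mul_assoc]⟩

instance : SMulCommClass F (∀ i, A i) (∀ i, A i) := ⟨fun r x y => by
  funext i; simp [mul_smul_comm]⟩

/-- the projection of the product -/
def evalHom (i : ℕ) : (∀ i, A i) →ₙₐ[F] A i where
  toFun x := x i
  map_smul' _ _ := rfl
  map_zero' := rfl
  map_add' _ _ := rfl
  map_mul' _ _ := rfl

/-- the quotient map -/
noncomputable def Red.mkHom : (∀ i, A i) →ₙₐ[F] Red F A where
  toFun x := Red.mk F x
  map_smul' _ _ := rfl
  map_zero' := rfl
  map_add' _ _ := rfl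
  map_mul' x y := Red.mk_mul F x y

theorem lift_apply_pi (w : ℕ → ∀ i, A i) (p : FreeNonUnitalNonAssocAlgebra F ℕ) (i : ℕ) :
    FreeNonUnitalNonAssocAlgebra.lift F w p i =
      FreeNonUnitalNonAssocAlgebra.lift F (fun k => w k i) p := by
  have h : (evalHom F A i).comp (FreeNonUnitalNonAssocAlgebra.lift F w) =
      FreeNonUnitalNonAssocAlgebra.lift F (fun k => w k i) := by
    apply FreeNonUnitalNonAssocAlgebra.hom_ext
    intro x
    rw [NonUnitalAlgHom.comp_apply, FreeNonUnitalNonAssocAlgebra.lift_of_apply,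
      FreeNonUnitalNonAssocAlgebra.lift_of_apply]
    rfl
  rw [← h]; rfl

theorem lift_apply_red (w : ℕ → ∀ i, A i) (p : FreeNonUnitalNonAssocAlgebra F ℕ) :
    FreeNonUnitalNonAssocAlgebra.lift F (fun k => Red.mk F (w k)) p =
      Red.mk F (FreeNonUnitalNonAssocAlgebra.lift F w p) := by
  have h : (Red.mkHom F A).comp (FreeNonUnitalNonAssocAlgebra.lift F w) =
      FreeNonUnitalNonAssocAlgebra.lift F (fun k => Red.mk F (w k)) := by
    apply FreeNonUnitalNonAssocAlgebra.hom_ext
    intro x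
    rw [NonUnitalAlgHom.comp_apply, FreeNonUnitalNonAssocAlgebra.lift_of_apply,
      FreeNonUnitalNonAssocAlgebra.lift_of_apply]
    rfl
  rw [← h]; rfl

/-- An identity holds in the reduced product iff it holds in almost all factors. -/
theorem red_sat_iff (p : FreeNonUnitalNonAssocAlgebra F ℕ) :
    (∀ w : ℕ → Red F A, FreeNonUnitalNonAssocAlgebra.lift F w p = 0) ↔
      ∀ᶠ i in atTop, ∀ w : ℕ → A i, FreeNonUnitalNonAssocAlgebra.lift F w p = 0 := by
  classical
  constructor
  · intro h
    let w : ℕ → ∀ i, A i := fun k i =>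
      if hi : ∃ w : ℕ → A i, FreeNonUnitalNonAssocAlgebra.lift F w p ≠ 0 then hi.choose k else 0
    have h1 := h (fun k => Red.mk F (w k))
    rw [lift_apply_red, ← Red.mk_zero F (A := A), Red.mk_eq] at h1
    filter_upwards [h1] with i hi
    rw [lift_apply_pi] at hi
    by_contra hcon
    push Not at hcon
    have e : (fun k => w k i) = hcon.choose := by
      funext k
      simp only [w]
      rw [dif_pos hcon]
    rw [e] at hi
    exact hcon.choose_spec hi
  · intro h w
    choose w' hw' using fun k => Red.mk_surj F (w k)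
    have e : w = fun k => Red.mk F (w' k) := by funext k; exact (hw' k).symm
    rw [e, lift_apply_red, ← Red.mk_zero F (A := A), Red.mk_eq]
    filter_upwards [h] with i hi
    rw [lift_apply_pi, hi]
    rfl

end

end Pool.Agent.H49R2
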