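import Pool.Agent.H49R2.Value
import Pool.Agent.H49R2.Reduced

/-!
An infinitely based variety of solvable commutative alternative algebras over every field of
characteristic three.
-/

set_option autoImplicit false

namespace Pool.Agent.H49R2

universe u

open Filter

section

variable (F : Type u) [Field F]

/-- the free generators -/
noncomputable abbrev X (i : ℕ) : FreeNonUnitalNonAssocAlgebra F ℕ :=
  FreeNonUnitalNonAssocAlgebra.of F i

/-- commutativity -/
noncomputable def commPoly : FreeNonUnitalNonAssocAlgebra F ℕ := X F 0 * X F 1 - X F 1 * X F 0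

/-- left alternativity -/
noncomputable def altPoly : FreeNonUnitalNonAssocAlgebra F ℕ :=
  (X F 0 * X F 0) * X F 1 - X F 0 * (X F 0 * X F 1)

/-- solvability -/
noncomputable def solvPoly : FreeNonUnitalNonAssocAlgebra F ℕ :=
  ((X F 0 * X F 1) * (X F 2 * X F 3)) * ((X F 4 * X F 5) * (X F 6 * X F 7))

/-- the polynomials of the infinite system -/
noncomputable def fPoly (r : ℕ) : FreeNonUnitalNonAssocAlgebra F ℕ :=
  ff (X F 0) (X F 1) (X F 2) (X F 3) (X F 4) ((List.range' 5 (2 * r)).map (X F))
    ((List.range' (5 + 2 * r) (2 * r + 1)).map (X F))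
    ((List.range' (5 + 2 * r + (2 * r + 1)) (2 * r + 1)).map (X F))

/-- the identities of the variety -/
def bigS : Set (FreeNonUnitalNonAssocAlgebra F ℕ) :=
  {commPoly F, altPoly F, solvPoly F} ∪ Set.range (fPoly F)

end

section models

variable {F : Type u} [Field F] {A : Type u} [NonUnitalNonAssocRing A] [Module F A]
  [IsScalarTower F A A] [SMulCommClass F A A]

theorem lift_comm (w : ℕ → A) :
    FreeNonUnitalNonAssocAlgebra.lift F w (commPoly F) = w 0 * w 1 - w 1 * w 0 := by
  simp [commPoly, X]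

theorem lift_alt (w : ℕ → A) :
    FreeNonUnitalNonAssocAlgebra.lift F w (altPoly F) =
      (w 0 * w 0) * w 1 - w 0 * (w 0 * w 1) := by
  simp [altPoly, X]

theorem lift_solv (w : ℕ → A) :
    FreeNonUnitalNonAssocAlgebra.lift F w (solvPoly F) =
      ((w 0 * w 1) * (w 2 * w 3)) * ((w 4 * w 5) * (w 6 * w 7)) := by
  simp [solvPoly, X]

theorem lift_f (w : ℕ → A) (r : ℕ) :
    FreeNonUnitalNonAssocAlgebra.lift F w (fPoly F r) =
      ff (w 0) (w 1) (w 2) (w 3) (w 4) ((List.range' 5 (2 * r)).map w)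
    ((List.range' (5 + 2 * r) (2 * r + 1)).map w)
    ((List.range' (5 + 2 * r + (2 * r + 1)) (2 * r + 1)).map w) := by
  have hX : ∀ i, FreeNonUnitalNonAssocAlgebra.lift F w (X F i) = w i := fun i => by
    simp [X]
  unfold fPoly
  rw [map_ff (FreeNonUnitalNonAssocAlgebra.lift F w) (map_mul _) (map_add _) (map_sub _)]
  simp only [List.map_map, hX]
  have hc : (⇑(FreeNonUnitalNonAssocAlgebra.lift F w) ∘ X F) = w := by
    funext i; exact hX i
  rw [hc]

end models

section alg

variable {F : Type u} [Field F] [CharP F 3] {n : ℕ}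

theorem alg_alt (hn : Even n) (x y : Alg F n) : (x * x) * y = x * (x * y) := by
  have h := Alg.jacobi hn x x y
  have h3 : ∀ w : Alg F n, w + w + w = 0 := by
    intro w
    have h3 : (3 : F) = 0 := by exact_mod_cast CharP.cast_eq_zero F 3
    have h : w + w + w = (3 : F) • w := by
      rw [show (3 : F) = 1 + 1 + 1 by norm_num, add_smul, add_smul, one_smul]
    rw [h, h3, zero_smul]
  have e1 : x * y * x = x * (x * y) := Alg.mul_comm' _ _
  have e2 : y * x * x = x * (x * y) := by rw [Alg.mul_comm' y x]; exact Alg.mul_comm' _ _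
  rw [e1, e2] at h
  have h4 := h3 (x * (x * y))
  calc x * x * y = (x * x * y + x * (x * y) + x * (x * y)) -
        (x * (x * y) + x * (x * y) + x * (x * y)) + x * (x * y) := by abel
    _ = x * (x * y) := by rw [h, h4]; simp

theorem alg_solv (x₁ x₂ x₃ x₄ x₅ x₆ x₇ x₈ : Alg F n) :
    ((x₁ * x₂) * (x₃ * x₄)) * ((x₅ * x₆) * (x₇ * x₈)) = 0 := by
  refine Alg.ext' ?_ ?_ ?_ ?_
  · simp
  · simp
  · simp
  · simp

/-- the assignment for which `fPoly` does not vanish -/
noncomputable def wit (n : ℕ) (i : ℕ) : Alg F n :=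
  if i = 0 then Alg.mk 0 1 0 0 else
    Alg.mk (if h : i - 1 < n then Pi.single ⟨i - 1, h⟩ 1 else 0) 0 0 0

omit [CharP F 3] in
theorem vp_wit (n : ℕ) :
    Alg.vp ((List.range' 1 n).map (wit (F := F) n)) =
      ExteriorAlgebra.ιMulti F n (fun i => (Pi.single i 1 : Fin n → F)) := by
  rw [ExteriorAlgebra.ιMulti_apply, Alg.vp]
  congr 1
  apply List.ext_getElem
  · simp
  · intro i h1 h2
    simp only [List.length_map, List.length_range'] at h1
    have hi : ¬ (1 + i = 0) := by omega
    have hi2 : 1 + i - 1 < n := by omega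
    have hi3 : 1 + i - 1 = i := by omega
    simp [wit, hi3, h1]

theorem f_wit (r : ℕ) :
    FreeNonUnitalNonAssocAlgebra.lift F (wit (F := F) (6 * r + 6)) (fPoly F r) ≠ 0 := by
  rw [lift_f]
  rw [Alg.ff_eq]
  · have e : (wit (F := F) (6 * r + 6) 1) :: (wit (F := F) (6 * r + 6) 2) ::
        (wit (F := F) (6 * r + 6) 3) :: (wit (F := F) (6 * r + 6) 4) ::
        ((List.range' 5 (2 * r)).map (wit (F := F) (6 * r + 6)) ++
        (List.range' (5 + 2 * r) (2 * r + 1)).map (wit (F := F) (6 * r + 6)) ++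
        (List.range' (5 + 2 * r + (2 * r + 1)) (2 * r + 1)).map (wit (F := F) (6 * r + 6))) =
        (List.range' 1 (6 * r + 6)).map (wit (F := F) (6 * r + 6)) := by
      rw [← List.map_append, List.range'_append_1, ← List.map_append,
        show 5 + 2 * r + (2 * r + 1) = 5 + (2 * r + (2 * r + 1)) by ring, List.range'_append_1,
        show 6 * r + 6 = (2 * r + (2 * r + 1) + (2 * r + 1)) + 1 + 1 + 1 + 1 by ring,
        List.range'_succ, List.range'_succ, List.range'_succ, List.range'_succ]
      simp only [List.map_cons]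
    rw [e, vp_wit, top_ιMulti]
    intro h
    have h1 := congrArg Alg.z h
    have h2 : Matrix.det (fun i => (Pi.single i 1 : Fin (6 * r + 6) → F)) = 1 := by
      have : (fun i => (Pi.single i 1 : Fin (6 * r + 6) → F)) =
          (1 : Matrix (Fin (6 * r + 6)) (Fin (6 * r + 6)) F) := by
        ext i j
        rw [Matrix.one_apply, Pi.single_apply]
        simp only [eq_comm]
      rw [this, Matrix.det_one]
    have h3 : aug (wit (F := F) (6 * r + 6) 0).p = 1 := by
      simp [wit, aug]
    rw [Alg.mk_z, h2, h3] at h1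
    simp at h1
  · simp
  · simp
  · simp

theorem f_other {r m : ℕ} (h : r ≠ m) (w : ℕ → Alg F (6 * m + 6)) :
    FreeNonUnitalNonAssocAlgebra.lift F w (fPoly F r) = 0 := by
  rw [lift_f]
  apply Alg.ff_eq_zero
  · simp
  · simp
  · simp
  · simp only [List.length_map, List.length_range']
    omega

end alg

/-- **Main theorem.** The variety defined by `bigS F` is not defined by a finite set of
identities. -/
theorem not_finitely_based (F : Type u) [Field F] [CharP F 3]
    (S' : Set (FreeNonUnitalNonAssocAlgebra F ℕ)) (hfin : S'.Finite)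
    (h : ∀ (A : Type u) [NonUnitalNonAssocRing A] [Module F A] [IsScalarTower F A A]
      [SMulCommClass F A A],
      (∀ p ∈ S', ∀ w : ℕ → A, FreeNonUnitalNonAssocAlgebra.lift F w p = 0) ↔
        (∀ p ∈ bigS F, ∀ w : ℕ → A, FreeNonUnitalNonAssocAlgebra.lift F w p = 0)) : False := by
  have h1 : ∀ p ∈ bigS F, ∀ w : ℕ → Red F (fun m => Alg F (6 * m + 6)),
      FreeNonUnitalNonAssocAlgebra.lift F w p = 0 := by
    intro p hp
    rw [red_sat_iff]
    rcases hp with hp | ⟨r, rfl⟩
    · refine Eventually.of_forall fun m w => ?_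
      have hev : Even (6 * m + 6) := ⟨3 * m + 3, by ring⟩
      rcases hp with rfl | rfl | rfl
      · rw [lift_comm, Alg.mul_comm', sub_self]
      · rw [lift_alt, alg_alt hev, sub_self]
      · rw [lift_solv, alg_solv]
    · rw [eventually_atTop]
      exact ⟨r + 1, fun m hm w => f_other (by omega) w⟩
  have h2 : ∀ p ∈ S', ∀ᶠ m in atTop, ∀ w : ℕ → Alg F (6 * m + 6),
      FreeNonUnitalNonAssocAlgebra.lift F w p = 0 := by
    intro p hp
    rw [← red_sat_iff F (fun m => Alg F (6 * m + 6))]
    exact (h _).2 h1 p hp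
  have h3 : ∀ᶠ m in atTop, ∀ p ∈ S', ∀ w : ℕ → Alg F (6 * m + 6),
      FreeNonUnitalNonAssocAlgebra.lift F w p = 0 :=
    (eventually_all_finite hfin).2 h2
  obtain ⟨m, hm⟩ := h3.exists
  exact f_wit (F := F) m ((h (Alg F (6 * m + 6))).1 hm (fPoly F m) (Or.inr ⟨m, rfl⟩) _)

end Pool.Agent.H49R2
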