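import Pool.Agent.H49R2.Eval

/-!
The values of the polynomials `ff` on the algebras `Alg F n`.
-/

set_option autoImplicit false

namespace Pool.Agent.H49R2

universe u

namespace Alg

variable {F : Type u} [Field F] {n : ℕ}

/-- the product of the vector components -/
noncomputable def vp (l : List (Alg F n)) : ExteriorAlgebra F (Fin n → F) :=
  ((l.map v).map (ExteriorAlgebra.ι F)).prod

theorem vp_cons (a : Alg F n) (l : List (Alg F n)) : vp (a :: l) = ExteriorAlgebra.ι F a.v * vp l := by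
  simp [vp]

theorem vp_append (l l' : List (Alg F n)) : vp (l ++ l') = vp l * vp l' := by
  simp [vp]

theorem sg_vp (l : List (Alg F n)) : sg (vp l) = (-1 : F) ^ l.length • vp l := by
  have h2 := CliffordAlgebra.involute_prod_map_ι (Q := (0 : QuadraticForm F (Fin n → F)))
    (l.map v)
  rw [List.length_map] at h2
  exact h2

theorem word_v (l : List (Alg F n)) : ∀ (u : Alg F n), u.v = 0 →
    (word u l).v = 0 ∧ (word u l).p = u.p * vp l := by
  induction l with
  | nil =>
    intro u hu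
    refine ⟨hu, ?_⟩
    simp [word, vp]
  | cons a l ih =>
    intro u hu
    have h := ih (u * a) rfl
    refine ⟨h.1, ?_⟩
    have h2 : (word u (a :: l)).p = (word (u * a) l).p := rfl
    rw [h2, h.2, mul_p, hu, map_zero, mul_zero, add_zero, vp_cons, mul_assoc]

theorem word_cons_v (x a : Alg F n) (l : List (Alg F n)) : (word x (a :: l)).v = 0 :=
  (word_v l (x * a) rfl).1

theorem word_cons_p (x a : Alg F n) (l : List (Alg F n)) : (word x (a :: l)).p =
    (x.p * ExteriorAlgebra.ι F a.v + a.p * ExteriorAlgebra.ι F x.v) * vp l :=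
  (word_v l (x * a) rfl).2

theorem triple (a b d : Alg F n) (ha : a.v = 0) (hb : b.v = 0) (hd : d.v = 0) :
    (a * b) * d = mk 0 0 0 (top n (tri a.p b.p d.p)) := by
  refine ext' ?_ ?_ ?_ ?_
  · simp
  · simp [ha, hb, hd]
  · simp [ha, hb, hd]
  · simp [ha, hb, tri]

theorem mon_eq (x a b c d : Alg F n) (R1 R2 R3 : List (Alg F n)) :
    mon x a b c d R1 R2 R3 = mk 0 0 0 (top n (tri
      ((x.p * ExteriorAlgebra.ι F a.v + a.p * ExteriorAlgebra.ι F x.v) *
        (ExteriorAlgebra.ι F b.v * vp R1))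
      ((x.p * ExteriorAlgebra.ι F c.v + c.p * ExteriorAlgebra.ι F x.v) * vp R2)
      ((x.p * ExteriorAlgebra.ι F d.v + d.p * ExteriorAlgebra.ι F x.v) * vp R3))) := by
  unfold mon
  rw [triple _ _ _ (word_cons_v _ _ _) (word_cons_v _ _ _) (word_cons_v _ _ _), word_cons_p,
    word_cons_p, word_cons_p, vp_cons]

theorem mk_add (s t : F) : mk (n := n) 0 0 0 s + mk 0 0 0 t = mk 0 0 0 (s + t) := by
  refine ext' ?_ ?_ ?_ ?_ <;> simp

theorem mk_sub (s t : F) : mk (n := n) 0 0 0 s - mk 0 0 0 t = mk 0 0 0 (s - t) := by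
  refine ext' ?_ ?_ ?_ ?_ <;> simp

theorem ff_eq [CharP F 3] (x a b c d : Alg F n) (R1 R2 R3 : List (Alg F n))
    (h1 : Even R1.length) (h2 : Odd R2.length) (h3 : Odd R3.length) :
    ff x a b c d R1 R2 R3 =
      mk 0 0 0 (-(aug x.p ^ 3 * top n (vp (a :: b :: c :: d :: (R1 ++ R2 ++ R3))))) := by
  have s1 : sg (vp R1) = vp R1 := by rw [sg_vp, h1.neg_one_pow, one_smul]
  have s2 : sg (vp R2) = -vp R2 := by rw [sg_vp, h2.neg_one_pow, neg_smul, one_smul]
  have s3 : sg (vp R3) = -vp R3 := by rw [sg_vp, h3.neg_one_pow, neg_smul, one_smul]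
  unfold ff
  rw [mon_eq, mon_eq, mon_eq, mon_eq, mk_sub, mk_sub, mk_add, ← map_sub, ← map_sub, ← map_add,
    tri_sum s1 s2 s3]
  congr 1
  rw [cube_eq, ← Algebra.smul_def, map_neg, map_smul, smul_eq_mul]
  congr 3
  unfold Th
  rw [vp_cons, vp_cons, vp_cons, vp_cons, vp_append, vp_append]
  simp only [mul_assoc]

theorem ff_eq_zero [CharP F 3] (x a b c d : Alg F n) (R1 R2 R3 : List (Alg F n))
    (h1 : Even R1.length) (h2 : Odd R2.length) (h3 : Odd R3.length)
    (h : 4 + R1.length + R2.length + R3.length ≠ n) : ff x a b c d R1 R2 R3 = 0 := by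
  rw [ff_eq x a b c d R1 R2 R3 h1 h2 h3]
  have : top n (vp (a :: b :: c :: d :: (R1 ++ R2 ++ R3))) = 0 := by
    apply top_prod
    simp only [List.map_cons, List.map_append, List.length_cons, List.length_append,
      List.length_map]
    omega
  rw [this]
  refine ext' ?_ ?_ ?_ ?_ <;> simp

end Alg

end Pool.Agent.H49R2
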